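import Pool.Agent.Helper70_PDS.Defs

/-! Cylinder graphs have two-page book embeddings. -/

namespace PDS

namespace Cyl

variable {Q : Type} (C : Cyl Q)

/-- integer positions on the spine -/
def P (M : ℕ) (a : Fin 4 × Q) : ℤ :=
  if a.1 = 0 then (C.h a.2 : ℤ) else
  if a.1 = 1 then 2 * M - 1 - C.h a.2 else
  if a.1 = 2 then 2 * M + C.h a.2 else 4 * M - 1 - C.h a.2

/-- types of edges, with the page and the ends in the order of the spine -/
inductive Ty : Bool → Fin 4 × Q → Fin 4 × Q → Prop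
  | s0 (p q : Q) (h : C.E 0 p q) : Ty false (0, p) (1, q)
  | s1 (p q : Q) (h : C.E 1 p q) : Ty true (1, p) (2, q)
  | s2 (p q : Q) (h : C.E 2 p q) : Ty false (2, p) (3, q)
  | s3 (p q : Q) (h : C.E 3 p q) : Ty true (0, q) (3, p)
  | a0 (p q : Q) (h : C.A 0 p q) : Ty true (0, p) (0, q)
  | b0 (p q : Q) (h : C.B 0 p q) : Ty false (0, p) (0, q)
  | a1 (p q : Q) (h : C.A 1 p q) : Ty false (1, q) (1, p)
  | b1 (p q : Q) (h : C.B 1 p q) : Ty true (1, q) (1, p)
  | a2 (p q : Q) (h : C.A 2 p q) : Ty true (2, p) (2, q)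
  | b2 (p q : Q) (h : C.B 2 p q) : Ty false (2, p) (2, q)
  | a3 (p q : Q) (h : C.A 3 p q) : Ty false (3, q) (3, p)
  | b3 (p q : Q) (h : C.B 3 p q) : Ty true (3, q) (3, p)

theorem no_cross (M : ℕ) (hM : ∀ q, C.h q < M) (x : Bool) (a b c d : Fin 4 × Q)
    (h1 : C.Ty x a b) (h2 : C.Ty x c d) (hac : C.P M a < C.P M c) (hcb : C.P M c < C.P M b)
    (hbd : C.P M b < C.P M d) : False := by
  rcases h1 with ⟨p, q, e⟩ | ⟨p, q, e⟩ | ⟨p, q, e⟩ | ⟨p, q, e⟩ | ⟨p, q, e⟩ | ⟨p, q, e⟩ | ⟨p, q, e⟩ |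
      ⟨p, q, e⟩ | ⟨p, q, e⟩ | ⟨p, q, e⟩ | ⟨p, q, e⟩ | ⟨p, q, e⟩ <;>
    rcases h2 with ⟨p', q', e'⟩ | ⟨p', q', e'⟩ | ⟨p', q', e'⟩ | ⟨p', q', e'⟩ | ⟨p', q', e'⟩ |
      ⟨p', q', e'⟩ | ⟨p', q', e'⟩ | ⟨p', q', e'⟩ | ⟨p', q', e'⟩ | ⟨p', q', e'⟩ | ⟨p', q', e'⟩ |
      ⟨p', q', e'⟩ <;>
    (have m1 := hM p
     have m2 := hM q
     have m3 := hM p'
     have m4 := hM q'
     simp [P] at hac hcb hbd
     first
     | omega
     | (have n1 := C.mono _ _ _ _ _ e e'
        have n2 := C.mono _ _ _ _ _ e' e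
        omega)
     | exact C.A_E _ _ _ _ _ e (by omega) (by omega) e'
     | exact C.A_E _ _ _ _ _ e' (by omega) (by omega) e
     | exact C.B_E _ _ _ _ _ e (by omega) (by omega) e'
     | exact C.B_E _ _ _ _ _ e' (by omega) (by omega) e
     | (have n1 := C.A_A _ _ _ _ _ e e'
        have n2 := C.A_A _ _ _ _ _ e' e
        omega)
     | (have n1 := C.B_B _ _ _ _ _ e e'
        have n2 := C.B_B _ _ _ _ _ e' e
        omega))

/-- the page of an edge -/
def up (a b : Fin 4 × Q) : Prop :=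
  (a.1 = b.1 ∧ ((C.A a.1 a.2 b.2 ∨ C.A a.1 b.2 a.2) ↔ (a.1 = 0 ∨ a.1 = 2))) ∨
  (a.1 = 1 ∧ b.1 = 2) ∨ (a.1 = 2 ∧ b.1 = 1) ∨ (a.1 = 3 ∧ b.1 = 0) ∨ (a.1 = 0 ∧ b.1 = 3)

theorem up_symm (a b : Fin 4 × Q) (h : C.up a b) : C.up b a := by
  unfold up at h ⊢
  rcases h with ⟨h1, h2⟩ | h | h | h | h
  · left
    refine ⟨h1.symm, ?_⟩
    rw [← h1, Or.comm]
    exact h2
  · tauto
  · tauto
  · tauto
  · tauto

theorem R_ty (M : ℕ) (hM : ∀ q, C.h q < M) (a b : Fin 4 × Q) (h : C.R a b)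
    (hab : C.P M a < C.P M b) : ∃ x, C.Ty x a b ∧ (x = true ↔ C.up a b) := by
  obtain ⟨c, p⟩ := a
  obtain ⟨d, q⟩ := b
  have m1 := hM p
  have m2 := hM q
  rcases h with ⟨hd, h | h⟩ | ⟨hd, h⟩
  · simp only at hd h
    subst hd
    have hlt := C.A_lt _ _ _ h
    fin_cases d
    · exact ⟨true, .a0 p q h, by simp [up]; left; exact h⟩
    · simp [P] at hab; omega
    · exact ⟨true, .a2 p q h, by simp [up]; left; exact h⟩
    · simp [P] at hab; omega
  · simp only at hd h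
    subst hd
    have hlt := C.B_lt _ _ _ h
    have hA : ¬ C.A d p q := fun h' => C.AB _ _ _ h' h
    have hA' : ¬ C.A d q p := fun h' => by
      have := C.A_lt _ _ _ h'
      omega
    fin_cases d
    · refine ⟨false, .b0 p q h, ?_⟩
      simp only [up]
      simp
      exact ⟨hA, hA'⟩
    · simp [P] at hab; omega
    · refine ⟨false, .b2 p q h, ?_⟩
      simp only [up]
      simp
      exact ⟨hA, hA'⟩
    · simp [P] at hab; omega
  · simp only at hd h
    subst hd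
    fin_cases c
    · exact ⟨false, .s0 p q h, by simp [up]⟩
    · exact ⟨true, .s1 p q h, by simp [up]⟩
    · exact ⟨false, .s2 p q h, by simp [up]⟩
    · simp [P] at hab; omega

theorem R_ty' (M : ℕ) (hM : ∀ q, C.h q < M) (a b : Fin 4 × Q) (h : C.R b a)
    (hab : C.P M a < C.P M b) : ∃ x, C.Ty x a b ∧ (x = true ↔ C.up a b) := by
  obtain ⟨c, p⟩ := a
  obtain ⟨d, q⟩ := b
  have m1 := hM p
  have m2 := hM q
  rcases h with ⟨hd, h | h⟩ | ⟨hd, h⟩
  · simp only at hd h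
    subst hd
    have hlt := C.A_lt _ _ _ h
    fin_cases c
    · simp [P] at hab; omega
    · exact ⟨false, .a1 q p h, by simp [up]; exact fun _ => h⟩
    · simp [P] at hab; omega
    · exact ⟨false, .a3 q p h, by simp [up]; exact fun _ => h⟩
  · simp only at hd h
    subst hd
    have hlt := C.B_lt _ _ _ h
    have hA : ¬ C.A c q p := fun h' => C.AB _ _ _ h' h
    have hA' : ¬ C.A c p q := fun h' => by
      have := C.A_lt _ _ _ h'
      omega
    fin_cases c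
    · simp [P] at hab; omega
    · refine ⟨true, .b1 q p h, ?_⟩
      simp only [up]
      simp
      exact ⟨hA', hA⟩
    · simp [P] at hab; omega
    · refine ⟨true, .b3 q p h, ?_⟩
      simp only [up]
      simp
      exact ⟨hA', hA⟩
  · simp only at hd h
    subst hd
    fin_cases d
    · simp [P] at hab; omega
    · simp [P] at hab; omega
    · simp [P] at hab; omega
    · exact ⟨true, .s3 q p h, by simp [up]⟩

theorem book [Finite Q] : Book2 C.graph := by
  cases nonempty_fintype Q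
  obtain ⟨M, hM⟩ : ∃ M, ∀ q, C.h q < M := by
    refine ⟨(Finset.univ.sup C.h) + 1, fun q => ?_⟩
    exact Nat.lt_succ_of_le (Finset.le_sup (f := C.h) (Finset.mem_univ q))
  have hinj : ∀ a b : Fin 4 × Q, C.P M a = C.P M b → a = b := by
    rintro ⟨c, p⟩ ⟨d, q⟩ h
    have m1 := hM p
    have m2 := hM q
    have key : c = d ∧ C.h p = C.h q := by
      fin_cases c <;> fin_cases d <;> simp [P] at h ⊢ <;> omega
    rw [key.1, C.inj key.2]
  refine ⟨⟨fun a => (C.P M a : ℝ), C.up, ?_, C.up_symm, ?_⟩⟩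
  · intro a b hab
    simp only [Int.cast_inj] at hab
    exact hinj a b hab
  · intro a b c d hab hcd hup h1 h2 h3
    rw [Int.cast_lt] at h1 h2 h3
    obtain ⟨x, hx, hx'⟩ : ∃ x, C.Ty x a b ∧ (x = true ↔ C.up a b) := by
      rcases hab with h | h
      · exact C.R_ty M hM a b h (by omega)
      · exact C.R_ty' M hM a b h (by omega)
    obtain ⟨y, hy, hy'⟩ : ∃ x, C.Ty x c d ∧ (x = true ↔ C.up c d) := by
      rcases hcd with h | h
      · exact C.R_ty M hM c d h (by omega)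
      · exact C.R_ty' M hM c d h (by omega)
    have hxy : x = y := by
      rw [Bool.eq_iff_iff, hx', hy', hup]
    subst hxy
    exact C.no_cross M hM x a b c d hx hy h1 h2 h3

theorem degree [Finite Q] (c : Fin 4) (q : Q) : dg C.graph (c, q) =
    {r | C.A c q r}.ncard + {r | C.A c r q}.ncard + {r | C.B c q r}.ncard + {r | C.B c r q}.ncard +
      {r | C.E c q r}.ncard + {r | C.E (c - 1) r q}.ncard := by
  have hset : C.graph.neighborSet (c, q) =
      ((fun r => (c, r)) '' ({r | C.A c q r} ∪ {r | C.A c r q} ∪ {r | C.B c q r} ∪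
        {r | C.B c r q})) ∪ ((fun r => (c + 1, r)) '' {r | C.E c q r}) ∪
        ((fun r => (c - 1, r)) '' {r | C.E (c - 1) r q}) := by
    ext ⟨d, r⟩
    simp only [SimpleGraph.mem_neighborSet, graph, R, Set.mem_union, Set.mem_image, Set.mem_setOf_eq,
      Prod.mk.injEq]
    constructor
    · rintro ((⟨rfl, h | h⟩ | ⟨rfl, h⟩) | (⟨rfl, h | h⟩ | ⟨rfl, h⟩))
      · exact Or.inl (Or.inl ⟨r, Or.inl (Or.inl (Or.inl h)), rfl, rfl⟩)
      · exact Or.inl (Or.inl ⟨r, Or.inl (Or.inr h), rfl, rfl⟩)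
      · exact Or.inl (Or.inr ⟨r, h, rfl, rfl⟩)
      · exact Or.inl (Or.inl ⟨r, Or.inl (Or.inl (Or.inr h)), rfl, rfl⟩)
      · exact Or.inl (Or.inl ⟨r, Or.inr h, rfl, rfl⟩)
      · refine Or.inr ⟨r, ?_, ?_, rfl⟩
        · rwa [add_sub_cancel_right]
        · rw [add_sub_cancel_right]
    · rintro ((⟨r', h, rfl, rfl⟩ | ⟨r', h, rfl, rfl⟩) | ⟨r', h, rfl, rfl⟩)
      · rcases h with ((h | h) | h) | h
        · exact Or.inl (Or.inl ⟨rfl, Or.inl h⟩)
        · exact Or.inr (Or.inl ⟨rfl, Or.inl h⟩)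
        · exact Or.inl (Or.inl ⟨rfl, Or.inr h⟩)
        · exact Or.inr (Or.inl ⟨rfl, Or.inr h⟩)
      · exact Or.inl (Or.inr ⟨rfl, h⟩)
      · exact Or.inr (Or.inr ⟨(sub_add_cancel c 1).symm, h⟩)
  have i1 : ∀ x : Fin 4, Function.Injective (fun r : Q => (x, r)) := fun x r s h =>
    (Prod.mk.inj h).2
  have n1 : ∀ c : Fin 4, c + 1 ≠ c := by decide
  have n2 : ∀ c : Fin 4, c - 1 ≠ c := by decide
  have n3 : ∀ c : Fin 4, c - 1 ≠ c + 1 := by decide
  rw [dg, hset, Set.ncard_union_eq _ (Set.toFinite _) (Set.toFinite _),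
    Set.ncard_union_eq _ (Set.toFinite _) (Set.toFinite _),
    Set.ncard_image_of_injective _ (i1 _), Set.ncard_image_of_injective _ (i1 _),
    Set.ncard_image_of_injective _ (i1 _),
    Set.ncard_union_eq _ (Set.toFinite _) (Set.toFinite _),
    Set.ncard_union_eq _ (Set.toFinite _) (Set.toFinite _),
    Set.ncard_union_eq _ (Set.toFinite _) (Set.toFinite _)]
  · rw [Set.disjoint_left]
    intro r h h'
    simp only [Set.mem_setOf_eq] at h h'
    have := C.A_lt _ _ _ h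
    have := C.A_lt _ _ _ h'
    omega
  · rw [Set.disjoint_left]
    rintro r (h | h) h' <;> simp only [Set.mem_setOf_eq] at h h'
    · exact C.AB _ _ _ h h'
    · have := C.A_lt _ _ _ h
      have := C.B_lt _ _ _ h'
      omega
  · rw [Set.disjoint_left]
    rintro r ((h | h) | h) h' <;> simp only [Set.mem_setOf_eq] at h h'
    · have := C.A_lt _ _ _ h
      have := C.B_lt _ _ _ h'
      omega
    · exact C.AB _ _ _ h h'
    · have := C.B_lt _ _ _ h
      have := C.B_lt _ _ _ h'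
      omega
  · rw [Set.disjoint_left]
    rintro _ ⟨r, _, rfl⟩ ⟨s, _, h⟩
    exact n1 c (Prod.mk.inj h).1
  · rw [Set.disjoint_left]
    rintro _ (⟨r, _, rfl⟩ | ⟨r, _, rfl⟩) ⟨s, _, h⟩
    · exact n2 c (Prod.mk.inj h).1
    · exact n3 c (Prod.mk.inj h).1

end Cyl

end PDS
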