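import Mathlib

/-!
# Degree sequences of planar graphs: definitions

* `Drawing G`: a drawing of the graph `G` in the plane `ℝ × ℝ` without crossings; `Planar G`.
* `Book2 G`: a two-page book embedding of `G` (vertices on a line, every edge above or below the
  line, no two edges on the same side cross).
* `dg G v`: the degree.
* `Rz D`: the multiset `D` of natural numbers is the multiset of degrees of a finite simple graph
  with a two-page book embedding.
* `Cyl Q`: cylinder graphs with four lines.
-/

namespace PDS

/-- A drawing of `G` in the plane without crossings: the vertices are distinct points, every edge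
is a simple arc joining its ends, the interior of an arc contains no vertex, and the interiors of
the arcs of two different edges are disjoint. -/
structure Drawing {V : Type} (G : SimpleGraph V) where
  /-- the point of a vertex -/
  pt : V → ℝ × ℝ
  /-- the arc of an edge, parametrised by `[0, 1]` -/
  arc : V → V → ℝ → ℝ × ℝ
  pt_inj : Function.Injective pt
  cont : ∀ u v, G.Adj u v → ContinuousOn (arc u v) (Set.Icc 0 1)
  inj : ∀ u v, G.Adj u v → Set.InjOn (arc u v) (Set.Icc 0 1)
  left : ∀ u v, G.Adj u v → arc u v 0 = pt u
  right : ∀ u v, G.Adj u v → arc u v 1 = pt v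
  avoid : ∀ u v w, G.Adj u v → ∀ t, 0 < t → t < 1 → arc u v t ≠ pt w
  cross : ∀ u v u' v', G.Adj u v → G.Adj u' v' → s(u, v) ≠ s(u', v') →
    ∀ t t', 0 < t → t < 1 → 0 < t' → t' < 1 → arc u v t ≠ arc u' v' t'

/-- Planar graphs. -/
def Planar {V : Type} (G : SimpleGraph V) : Prop := Nonempty (Drawing G)

/-- Two-page book embeddings. -/
structure Book {V : Type} (G : SimpleGraph V) where
  /-- the position of a vertex on the spine -/
  pos : V → ℝ
  /-- the edges on the upper page -/
  up : V → V → Prop
  inj : Function.Injective pos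
  symm : ∀ a b, up a b → up b a
  nc : ∀ a b c d, G.Adj a b → G.Adj c d → (up a b ↔ up c d) →
    pos a < pos c → pos c < pos b → pos b < pos d → False

/-- Graphs with a two-page book embedding. -/
def Book2 {V : Type} (G : SimpleGraph V) : Prop := Nonempty (Book G)

/-- The degree of a vertex. -/
noncomputable def dg {V : Type} (G : SimpleGraph V) (v : V) : ℕ := (G.neighborSet v).ncard

/-- The multiset `D` is the multiset of degrees of a finite graph with a two-page book
embedding. -/
def Rz (D : Multiset ℕ) : Prop :=
  ∃ (V : Type) (_ : Fintype V) (G : SimpleGraph V), Book2 G ∧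
    (Finset.univ : Finset V).val.map (dg G) = D

/-- Two-page book embeddings for the natural order of `Fin m`. -/
def FinBook {m : ℕ} (H : SimpleGraph (Fin m)) : Prop :=
  ∃ up : Fin m → Fin m → Prop, (∀ a b, up a b → up b a) ∧
    ∀ a b c d, H.Adj a b → H.Adj c d → (up a b ↔ up c d) → a < c → c < b → b < d → False

/-- Cylinder graphs with four lines. The vertices are the pairs `(c, q)`, `c : Fin 4`, `q : Q`.
On the line `c` the vertex `(c, q)` has the height `h q`. The edges from line `c` to the line
`c + 1` (modulo 4) are given by the monotone relation `E c`; the edges along the line `c` are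
given by `A c` (drawn on the left side, towards line `c - 1`) and `B c` (drawn on the right
side, towards line `c + 1`). -/
structure Cyl (Q : Type) where
  /-- height -/
  h : Q → ℕ
  /-- edges from line `c` to line `c + 1` -/
  E : Fin 4 → Q → Q → Prop
  /-- edges along line `c`, left side -/
  A : Fin 4 → Q → Q → Prop
  /-- edges along line `c`, right side -/
  B : Fin 4 → Q → Q → Prop
  inj : Function.Injective h
  mono : ∀ c p q p' q', E c p q → E c p' q' → h p < h p' → h q ≤ h q'
  A_lt : ∀ c p q, A c p q → h p < h q
  B_lt : ∀ c p q, B c p q → h p < h q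
  AB : ∀ c p q, A c p q → ¬ B c p q
  A_E : ∀ c p q r x, A c p q → h p < h r → h r < h q → ¬ E (c - 1) x r
  B_E : ∀ c p q r x, B c p q → h p < h r → h r < h q → ¬ E c r x
  A_A : ∀ c p q p' q', A c p q → A c p' q' → h p < h p' → h p' < h q → h q' ≤ h q
  B_B : ∀ c p q p' q', B c p q → B c p' q' → h p < h p' → h p' < h q → h q' ≤ h q

namespace Cyl

variable {Q : Type} (C : Cyl Q)

/-- the directed edges of the cylinder graph -/
def R (a b : Fin 4 × Q) : Prop :=
  (b.1 = a.1 ∧ (C.A a.1 a.2 b.2 ∨ C.B a.1 a.2 b.2)) ∨ (b.1 = a.1 + 1 ∧ C.E a.1 a.2 b.2)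

/-- the cylinder graph -/
def graph : SimpleGraph (Fin 4 × Q) where
  Adj a b := C.R a b ∨ C.R b a
  symm := ⟨fun _ _ h => h.symm⟩
  loopless := ⟨by
    rintro ⟨c, q⟩ h
    have h' : C.R (c, q) (c, q) := by rcases h with h | h <;> exact h
    rcases h' with ⟨_, h | h⟩ | ⟨h, _⟩
    · exact lt_irrefl _ (C.A_lt c q q h)
    · exact lt_irrefl _ (C.B_lt c q q h)
    · have hc : ∀ c : Fin 4, c ≠ c + 1 := by decide
      exact hc c h⟩

end Cyl

/-- The capacity of a vertex of degree `i`. -/
def cap (i : ℕ) : ℕ := if i = 2 ∨ i = 3 ∨ i = 4 then 2 else 1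

end PDS
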