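import Pool.Agent.Helper70_PDS.Stmts

/-! TUBE5: tubes with vertices of degree 5. -/

namespace PDS

open Multiset

namespace Tube5

theorem lex_lt {w k s k' s' : ℕ} (hs : s < w) (hs' : s' < w) :
    k * w + s < k' * w + s' ↔ k < k' ∨ (k = k' ∧ s < s') := by
  constructor
  · intro h
    by_contra hc
    push Not at hc
    obtain ⟨h1, h2⟩ := hc
    rcases Nat.lt_or_ge k' k with h3 | h3
    · have : (k' + 1) * w ≤ k * w := Nat.mul_le_mul_right w h3
      rw [add_mul] at this
      omega
    · have h4 : k = k' := by omega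
      have := h2 h4
      subst h4
      omega
  · rintro (h | ⟨rfl, h⟩)
    · have : (k + 1) * w ≤ k' * w := Nat.mul_le_mul_right w h
      rw [add_mul] at this
      omega
    · omega

theorem lex_le {w k s k' s' : ℕ} (hs : s < w) (hs' : s' < w) :
    k * w + s ≤ k' * w + s' ↔ k < k' ∨ (k = k' ∧ s ≤ s') := by
  rw [← not_lt, lex_lt hs' hs]
  omega

/-- heights -/
def ht {K w : ℕ} (q : Fin K × Fin w) : ℕ := q.1.val * w + q.2.val

theorem ht_inj {K w : ℕ} : Function.Injective (ht (K := K) (w := w)) := by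
  rintro ⟨k, s⟩ ⟨k', s'⟩ h
  have h1 : ¬ ht (k, s) < ht (k', s') := by omega
  have h2 : ¬ ht (k', s') < ht (k, s) := by omega
  unfold ht at h1 h2
  simp only at h1 h2
  rw [lex_lt s.isLt s'.isLt] at h1
  rw [lex_lt s'.isLt s.isLt] at h2
  have h3 : k.val = k'.val := by omega
  have h4 : s.val = s'.val := by omega
  rw [Fin.ext h3, Fin.ext h4]

/-- the relation inside a block -/
def blk (β s s' : ℕ) : Prop :=
  (s' = 0 ∧ s ≤ β + 1) ∨ (s = 2 * β + 1 ∧ β ≤ s') ∨ (s' ≤ β ∧ (s = s' + β ∨ s = s' + β + 1))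

/-- the cylinder -/
def cyl (β K : ℕ) : Cyl (Fin K × Fin (2 * β + 2)) where
  h := ht
  E _ p q := (q.1.val = p.1.val ∧ blk β p.2.val q.2.val) ∨
    (p.1.val = q.1.val + 1 ∧ p.2.val = 0 ∧ q.2.val = 2 * β + 1)
  A _ p q := ht q = ht p + 1
  B _ _ _ := False
  inj := ht_inj
  mono := by
    rintro c ⟨k, s⟩ ⟨k1, s1⟩ ⟨k', s'⟩ ⟨k1', s1'⟩ h h' hlt
    unfold ht at hlt ⊢
    simp only at h h' hlt ⊢
    rw [lex_lt s.isLt s'.isLt] at hlt
    rw [lex_le s1.isLt s1'.isLt]
    unfold blk at h h'
    have := s1.isLt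
    have := s1'.isLt
    omega
  A_lt := by intro c p q h; omega
  B_lt := by intro c p q h; exact h.elim
  AB := by intro c p q _ h; exact h
  A_E := by intro c p q r x h h1 h2; omega
  B_E := by intro c p q r x h; exact h.elim
  A_A := by intro c p q p' q' h _ h1 h2; omega
  B_B := by intro c p q p' q' h; exact h.elim

/-! ### Counting -/

theorem ncard_Icc {w : ℕ} (lo hi : ℕ) (h : hi < w) :
    {s : Fin w | lo ≤ s.val ∧ s.val ≤ hi}.ncard = hi + 1 - lo := by
  have h1 : ((fun s : Fin w => s.val) '' {s : Fin w | lo ≤ s.val ∧ s.val ≤ hi}) =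
      ((Finset.Icc lo hi : Finset ℕ) : Set ℕ) := by
    ext x
    simp only [Set.mem_image, Set.mem_ofPred_eq, Finset.coe_Icc, Set.mem_Icc]
    constructor
    · rintro ⟨s, hs, rfl⟩; exact hs
    · intro hx; exact ⟨⟨x, by omega⟩, hx, rfl⟩
  rw [← Set.ncard_image_of_injective _ Fin.val_injective, h1, Set.ncard_coe_finset, Nat.card_Icc]

theorem ncard_block {K w : ℕ} (k : ℕ) (hk : k < K) (lo hi : ℕ) (h : hi < w) :
    {q : Fin K × Fin w | q.1.val = k ∧ lo ≤ q.2.val ∧ q.2.val ≤ hi}.ncard = hi + 1 - lo := by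
  have h1 : {q : Fin K × Fin w | q.1.val = k ∧ lo ≤ q.2.val ∧ q.2.val ≤ hi} =
      ({⟨k, hk⟩} : Set (Fin K)) ×ˢ {s : Fin w | lo ≤ s.val ∧ s.val ≤ hi} := by
    ext ⟨a, b⟩
    simp only [Set.mem_ofPred_eq, Set.mem_prod, Set.mem_singleton_iff, Fin.ext_iff]
  rw [h1, Set.ncard_prod, Set.ncard_singleton, ncard_Icc lo hi h, one_mul]

theorem ncard_pt {K w : ℕ} (a b : ℕ) (hb : b < w) :
    {q : Fin K × Fin w | q.1.val = a ∧ q.2.val = b}.ncard = if a < K then 1 else 0 := by
  split_ifs with ha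
  · rw [Set.ncard_eq_one]
    refine ⟨(⟨a, ha⟩, ⟨b, hb⟩), ?_⟩
    ext ⟨x, y⟩
    simp only [Set.mem_ofPred_eq, Set.mem_singleton_iff, Prod.mk.injEq, Fin.ext_iff]
  · have : {q : Fin K × Fin w | q.1.val = a ∧ q.2.val = b} = ∅ := by
      ext ⟨x, y⟩
      simp only [Set.mem_ofPred_eq, Set.mem_empty_iff_false, iff_false]
      have := x.isLt
      omega
    rw [this, Set.ncard_empty]

theorem ht_eq {K w : ℕ} (q : Fin K × Fin w) (a b : ℕ) (hb : b < w) :
    ht q = a * w + b ↔ q.1.val = a ∧ q.2.val = b := by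
  unfold ht
  constructor
  · intro h
    have h1 : ¬ q.1.val * w + q.2.val < a * w + b := by omega
    have h2 : ¬ a * w + b < q.1.val * w + q.2.val := by omega
    rw [lex_lt q.2.isLt hb] at h1
    rw [lex_lt hb q.2.isLt] at h2
    omega
  · rintro ⟨h1, h2⟩
    rw [h1, h2]

/-- line, next -/
theorem line_out {K w : ℕ} (q : Fin K × Fin w) (hw : 0 < w) :
    {r : Fin K × Fin w | ht r = ht q + 1}.ncard =
      if q.2.val + 1 < w then 1 else if q.1.val + 1 < K then 1 else 0 := by
  split_ifs with h1 h2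
  · have : {r : Fin K × Fin w | ht r = ht q + 1} =
        {r | r.1.val = q.1.val ∧ r.2.val = q.2.val + 1} := by
      ext r
      simp only [Set.mem_ofPred_eq]
      rw [← ht_eq r _ _ h1]
      unfold ht
      omega
    rw [this, ncard_pt _ _ h1, if_pos q.1.isLt]
  · have : {r : Fin K × Fin w | ht r = ht q + 1} = {r | r.1.val = q.1.val + 1 ∧ r.2.val = 0} := by
      ext r
      simp only [Set.mem_ofPred_eq]
      rw [← ht_eq r _ _ hw]
      unfold ht
      have := q.2.isLt
      rw [add_mul]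
      omega
    rw [this, ncard_pt _ _ hw, if_pos h2]
  · have : {r : Fin K × Fin w | ht r = ht q + 1} = {r | r.1.val = q.1.val + 1 ∧ r.2.val = 0} := by
      ext r
      simp only [Set.mem_ofPred_eq]
      rw [← ht_eq r _ _ hw]
      unfold ht
      have := q.2.isLt
      rw [add_mul]
      omega
    rw [this, ncard_pt _ _ hw, if_neg h2]

/-- line, previous -/
theorem line_in {K w : ℕ} (q : Fin K × Fin w) :
    {r : Fin K × Fin w | ht q = ht r + 1}.ncard =
      if 0 < q.2.val then 1 else if 0 < q.1.val then 1 else 0 := by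
  have hq := q.2.isLt
  have hq1 := q.1.isLt
  split_ifs with h1 h2
  · have : {r : Fin K × Fin w | ht q = ht r + 1} =
        {r | r.1.val = q.1.val ∧ r.2.val = q.2.val - 1} := by
      ext r
      simp only [Set.mem_ofPred_eq]
      rw [← ht_eq r _ _ (by omega)]
      unfold ht
      omega
    rw [this, ncard_pt _ _ (by omega), if_pos q.1.isLt]
  · have : {r : Fin K × Fin w | ht q = ht r + 1} =
        {r | r.1.val = q.1.val - 1 ∧ r.2.val = w - 1} := by
      ext r
      simp only [Set.mem_ofPred_eq]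
      rw [← ht_eq r _ _ (by omega)]
      unfold ht
      obtain ⟨t, ht⟩ : ∃ t, q.1.val = t + 1 := ⟨q.1.val - 1, by omega⟩
      rw [ht, add_mul]
      simp only [Nat.add_sub_cancel]
      omega
    rw [this, ncard_pt _ _ (by omega), if_pos (by omega)]
  · have : {r : Fin K × Fin w | ht q = ht r + 1} = ∅ := by
      ext r
      simp only [Set.mem_ofPred_eq, Set.mem_empty_iff_false, iff_false]
      unfold ht
      have h3 : q.1.val = 0 := by omega
      rw [h3]
      omega
    rw [this, Set.ncard_empty]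

theorem E_out (β K : ℕ) (k s lo hi : ℕ) (hk : k < K) (hhi : hi < 2 * β + 2)
    (h : ∀ x, x < 2 * β + 2 → (blk β s x ↔ lo ≤ x ∧ x ≤ hi)) :
    {r : Fin K × Fin (2 * β + 2) | (r.1.val = k ∧ blk β s r.2.val) ∨
      (k = r.1.val + 1 ∧ s = 0 ∧ r.2.val = 2 * β + 1)}.ncard =
      (hi + 1 - lo) + if 0 < k ∧ s = 0 then 1 else 0 := by
  have h1 : {r : Fin K × Fin (2 * β + 2) | (r.1.val = k ∧ blk β s r.2.val) ∨
      (k = r.1.val + 1 ∧ s = 0 ∧ r.2.val = 2 * β + 1)} =
      {r | r.1.val = k ∧ lo ≤ r.2.val ∧ r.2.val ≤ hi} ∪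
      {r | k = r.1.val + 1 ∧ s = 0 ∧ r.2.val = 2 * β + 1} := by
    ext r
    simp only [Set.mem_union, Set.mem_ofPred_eq]
    rw [h _ r.2.isLt]
  rw [h1, Set.ncard_union_eq _ (Set.toFinite _) (Set.toFinite _), ncard_block k hk lo hi hhi]
  · congr 1
    split_ifs with h2
    · have : {r : Fin K × Fin (2 * β + 2) | k = r.1.val + 1 ∧ s = 0 ∧ r.2.val = 2 * β + 1} =
          {r | r.1.val = k - 1 ∧ r.2.val = 2 * β + 1} := by
        ext r
        simp only [Set.mem_ofPred_eq]
        omega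
      rw [this, ncard_pt _ _ (by omega), if_pos (by omega)]
    · have : {r : Fin K × Fin (2 * β + 2) | k = r.1.val + 1 ∧ s = 0 ∧ r.2.val = 2 * β + 1} = ∅ := by
        ext r
        simp only [Set.mem_ofPred_eq, Set.mem_empty_iff_false, iff_false]
        omega
      rw [this, Set.ncard_empty]
  · rw [Set.disjoint_left]
    intro r h2 h3
    simp only [Set.mem_ofPred_eq] at h2 h3
    omega

theorem E_in (β K : ℕ) (k s lo hi : ℕ) (hk : k < K) (hhi : hi < 2 * β + 2)
    (h : ∀ x, x < 2 * β + 2 → (blk β x s ↔ lo ≤ x ∧ x ≤ hi)) :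
    {r : Fin K × Fin (2 * β + 2) | (k = r.1.val ∧ blk β r.2.val s) ∨
      (r.1.val = k + 1 ∧ r.2.val = 0 ∧ s = 2 * β + 1)}.ncard =
      (hi + 1 - lo) + if k + 1 < K ∧ s = 2 * β + 1 then 1 else 0 := by
  have h1 : {r : Fin K × Fin (2 * β + 2) | (k = r.1.val ∧ blk β r.2.val s) ∨
      (r.1.val = k + 1 ∧ r.2.val = 0 ∧ s = 2 * β + 1)} =
      {r | r.1.val = k ∧ lo ≤ r.2.val ∧ r.2.val ≤ hi} ∪
      {r | r.1.val = k + 1 ∧ r.2.val = 0 ∧ s = 2 * β + 1} := by
    ext r
    simp only [Set.mem_union, Set.mem_ofPred_eq]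
    rw [h _ r.2.isLt]
    tauto
  rw [h1, Set.ncard_union_eq _ (Set.toFinite _) (Set.toFinite _), ncard_block k hk lo hi hhi]
  · congr 1
    by_cases h2 : s = 2 * β + 1
    · have : {r : Fin K × Fin (2 * β + 2) | r.1.val = k + 1 ∧ r.2.val = 0 ∧ s = 2 * β + 1} =
          {r | r.1.val = k + 1 ∧ r.2.val = 0} := by
        ext r
        simp only [Set.mem_ofPred_eq]
        omega
      rw [this, ncard_pt _ _ (by omega)]
      simp [h2]
    · have : {r : Fin K × Fin (2 * β + 2) | r.1.val = k + 1 ∧ r.2.val = 0 ∧ s = 2 * β + 1} = ∅ := by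
        ext r
        simp only [Set.mem_ofPred_eq, Set.mem_empty_iff_false, iff_false]
        omega
      rw [this, Set.ncard_empty, if_neg (by omega)]
  · rw [Set.disjoint_left]
    intro r h2 h3
    simp only [Set.mem_ofPred_eq] at h2 h3
    omega

theorem deg_eq (β K : ℕ) (c : Fin 4) (q : Fin K × Fin (2 * β + 2)) :
    dg (cyl β K).graph (c, q) =
      if q.2.val = 0 then (if q.1.val = 0 then β + 4 else β + 6)
      else if q.2.val = 2 * β + 1 then (if q.1.val + 1 = K then β + 4 else β + 6)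
      else 5 := by
  rw [Cyl.degree]
  have hB : {r | (cyl β K).B c q r}.ncard = 0 := by
    have : {r | (cyl β K).B c q r} = ∅ := by
      ext r; simp [cyl]
    rw [this, Set.ncard_empty]
  have hB' : {r | (cyl β K).B c r q}.ncard = 0 := by
    have : {r | (cyl β K).B c r q} = ∅ := by
      ext r; simp [cyl]
    rw [this, Set.ncard_empty]
  have hA : {r | (cyl β K).A c q r}.ncard = _ := line_out q (by omega)
  have hA' : {r | (cyl β K).A c r q}.ncard = _ := line_in q
  rw [hB, hB', hA, hA']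
  obtain ⟨k, s⟩ := q
  have hs := s.isLt
  have hk := k.isLt
  simp only
  have key : ∀ lo hi lo' hi' : ℕ, hi < 2 * β + 2 → hi' < 2 * β + 2 →
      (∀ x, x < 2 * β + 2 → (blk β s.val x ↔ lo ≤ x ∧ x ≤ hi)) →
      (∀ x, x < 2 * β + 2 → (blk β x s.val ↔ lo' ≤ x ∧ x ≤ hi')) →
      {r | (cyl β K).E c (k, s) r}.ncard = (hi + 1 - lo) + (if 0 < k.val ∧ s.val = 0 then 1 else 0)
      ∧ {r | (cyl β K).E (c - 1) r (k, s)}.ncard =
        (hi' + 1 - lo') + (if k.val + 1 < K ∧ s.val = 2 * β + 1 then 1 else 0) := by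
    intro lo hi lo' hi' h1 h2 h3 h4
    exact ⟨E_out β K k.val s.val lo hi hk h1 h3, E_in β K k.val s.val lo' hi' hk h2 h4⟩
  by_cases c1 : s.val = 0
  · obtain ⟨e1, e2⟩ := key 0 0 0 (β + 1) (by omega) (by omega)
      (fun x hx => by unfold blk; omega) (fun x hx => by unfold blk; omega)
    rw [e1, e2]
    split_ifs <;> omega
  · by_cases c2 : s.val ≤ β
    · obtain ⟨e1, e2⟩ := key 0 0 (s.val + β) (s.val + β + 1) (by omega) (by omega)
        (fun x hx => by unfold blk; omega) (fun x hx => by unfold blk; omega)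
      rw [e1, e2]
      split_ifs <;> omega
    · by_cases c3 : s.val ≤ 2 * β
      · obtain ⟨e1, e2⟩ := key (s.val - β - 1) (s.val - β) (2 * β + 1) (2 * β + 1) (by omega)
          (by omega) (fun x hx => by unfold blk; omega) (fun x hx => by unfold blk; omega)
        rw [e1, e2]
        split_ifs <;> omega
      · obtain ⟨e1, e2⟩ := key β (2 * β + 1) (2 * β + 1) (2 * β + 1) (by omega)
          (by omega) (fun x hx => by unfold blk; omega) (fun x hx => by unfold blk; omega)
        rw [e1, e2]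
        split_ifs <;> omega

/-- the vertices -/
abbrev VV (β K : ℕ) : Type := Fin 4 × (Fin K × Fin (2 * β + 2))

/-- a map with two values -/
theorem two_val {V : Type} [Fintype V] (t : V → ℕ) (S : Finset V) (x y n : ℕ)
    (hx : ∀ v ∈ S, t v = x) (hy : ∀ v, v ∉ S → t v = y) (hn : S.card + n = Fintype.card V) :
    (Finset.univ : Finset V).val.map t = replicate S.card x + replicate n y := by
  classical
  have h1 : (Finset.univ : Finset V) = S ∪ Sᶜ := (Finset.union_compl S).symm
  have h2 : (Finset.univ : Finset V).val = S.val + Sᶜ.val := by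
    rw [h1, ← Finset.disjUnion_eq_union S Sᶜ disjoint_compl_right, Finset.disjUnion_val]
  rw [h2, Multiset.map_add]
  congr 1
  · rw [eq_replicate]
    refine ⟨by simp, fun b hb => ?_⟩
    obtain ⟨v, hv, rfl⟩ := mem_map.mp hb
    exact hx v hv
  · rw [eq_replicate]
    refine ⟨?_, fun b hb => ?_⟩
    · rw [card_map, Finset.card_val, Finset.card_compl]
      omega
    · obtain ⟨v, hv, rfl⟩ := mem_map.mp hb
      exact hy v (Finset.mem_compl.mp hv)

end Tube5

open Tube5 in
theorem tube5 (hr : Raise 2 5 12) (hf : FillStmt) : Tube 5 := by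
  classical
  intro β K
  by_cases hK : K = 0
  · refine ⟨0, by simp, ?_⟩
    subst hK
    refine ⟨Fin 0, inferInstance, ⊥, ⟨⟨fun v => v.elim0, fun v => v.elim0, fun v => v.elim0,
      fun v => v.elim0, fun v => v.elim0⟩⟩, ?_⟩
    simp
  obtain ⟨K, rfl⟩ : ∃ K', K = K' + 1 := ⟨K - 1, by omega⟩
  set e : VV β (K + 1) → ℕ := fun v => if v ∈ (Finset.univ : Finset (Fin 4)) ×ˢ
    ({((0 : Fin (K + 1)), (0 : Fin (2 * β + 2))), (Fin.last K, Fin.last (2 * β + 1))} :
      Finset (Fin (K + 1) × Fin (2 * β + 2))) then 1 else 0 with he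
  have hbook : Rz ((Finset.univ : Finset (VV β (K + 1))).val.map (dg (cyl β (K + 1)).graph) + 0) := by
    rw [add_zero]
    exact ⟨VV β (K + 1), inferInstance, _, (cyl β (K + 1)).book, rfl⟩
  have hfill := hf 2 5 12 hr (VV β (K + 1)) _ e 0 hbook
  have hesum : ∑ v, e v = 8 := by
    rw [he, Finset.sum_ite_mem, Finset.univ_inter, Finset.sum_const, Finset.card_product,
      Finset.card_pair]
    · simp
    · intro h
      have := congrArg (fun q : Fin (K + 1) × Fin (2 * β + 2) => q.2.val) h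
      simp at this
  have heval : ∀ (c : Fin 4) (k : Fin (K + 1)) (s : Fin (2 * β + 2)), e (c, k, s) =
      if (k.val = 0 ∧ s.val = 0) ∨ (k.val = K ∧ s.val = 2 * β + 1) then 1 else 0 := by
    intro c k s
    simp only [he, Finset.mem_product, Finset.mem_univ, true_and, Finset.mem_insert,
      Finset.mem_singleton, Prod.mk.injEq, Fin.ext_iff, Fin.val_zero, Fin.val_last]
  have ht : (Finset.univ : Finset (VV β (K + 1))).val.map (fun v => dg (cyl β (K + 1)).graph v + 2 * e v) =
      replicate (8 * (K + 1)) (β + 6) + replicate (8 * (K + 1) * β) 5 := by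
    have h1 := two_val (fun v : VV β (K + 1) => dg (cyl β (K + 1)).graph v + 2 * e v)
      ((Finset.univ : Finset (Fin 4)) ×ˢ ((Finset.univ : Finset (Fin (K + 1))) ×ˢ
        ({0, Fin.last (2 * β + 1)} : Finset (Fin (2 * β + 2))))) (β + 6) 5 (8 * (K + 1) * β) ?_ ?_ ?_
    · rw [Finset.card_product, Finset.card_product, Finset.card_pair] at h1
      · rw [h1]
        congr 2
        simp
        ring
      · intro h
        have := congrArg Fin.val h
        simp at this
    · rintro ⟨c, k, s⟩ hv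
      simp only [Finset.mem_product, Finset.mem_univ, true_and, Finset.mem_insert,
        Finset.mem_singleton, Fin.ext_iff, Fin.val_zero, Fin.val_last] at hv
      rw [deg_eq, heval]
      simp only
      have hk := k.isLt
      split_ifs <;> omega
    · rintro ⟨c, k, s⟩ hv
      simp only [Finset.mem_product, Finset.mem_univ, true_and, Finset.mem_insert,
        Finset.mem_singleton, not_or, Fin.ext_iff, Fin.val_zero, Fin.val_last] at hv
      rw [deg_eq, heval]
      simp only
      split_ifs <;> omega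
    · rw [Finset.card_product, Finset.card_product, Finset.card_pair]
      · simp
        ring
      · intro h
        have := congrArg Fin.val h
        simp at this
  rw [ht, hesum, add_zero, add_assoc, ← replicate_add] at hfill
  refine ⟨_, ?_, hfill⟩
  simp [cap]

end PDS
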