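import Pool.Agent.Helper70_PDS.Main
import Pool.Agent.Helper70_PDS.Tube5
import Pool.Agent.Helper9_PDS.Gad
import Pool.Agent.Helper9_PDS.Tube2
import Pool.Agent.Helper18_PDS.Draw
import Pool.Agent.Helper42_PDS.Seq
import Pool.Agent.Helper42_PDS.Sweep
import Pool.Agent.Helper42_PDS.Tube3O
import Pool.Agent.Helper46_PDS.SingleLeft
import Pool.Agent.Helper48_PDS.Bin
import Pool.Agent.Helper48_PDS.Small
import Pool.Agent.Helper50_PDS.Tube3E
import Pool.Agent.Helper50_PDS.Tube4
import Pool.Agent.Helper81_PDS.Tube1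
import Pool.Agent.Helper88_PDS.Ins
import Pool.Agent.Helper98_PDS.EVEN
import Pool.Agent.Helper98_PDS.FILL

/-! Assembly of the squad PDS. -/

namespace PDS

theorem gad_all : GadStmt := H9.gad H88.ins

theorem tubes : ∀ i, 1 ≤ i → i ≤ 5 → Tube i := by
  obtain ⟨g1, g2, g3, g4, g5, g6, g7, g8⟩ := gad_all
  intro i h1 h5
  interval_cases i
  · exact H81.tube1 g6 fill
  · exact H9.tube2 g2 fill
  · intro β K
    rcases Nat.mod_two_eq_zero_or_one β with h | h
    · exact H50.tube3E g3 fill β K h
    · exact H42.tube3o g3 g7 fill H48.small.1 β K h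
  · exact H50.tube4 g4 fill
  · exact tube5 g5 fill

theorem main_all : MainStmt :=
  main_proof (H42.sweep tubes gad_all H18.add H48.small) (H46.single gad_all H48.small H18.add)
    (H46.left gad_all H48.small H18.add) H48.small H18.add even H48.bin

theorem seq_all : SeqStmt := H42.seq H18.draw main_all H18.add H48.small

end PDS
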