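import Pool.Agent.Helper70_PDS.Stmts

/-! MAIN: the theorem for multisets of positive integers. -/

namespace PDS

open Multiset

namespace MainProof

theorem exists_sub (S : Multiset ℕ) (n : ℕ) (h : n ≤ card S) : ∃ B ≤ S, card B = n := by
  induction S using Quotient.inductionOn with
  | _ l =>
    refine ⟨(l.take n : List ℕ), ?_, ?_⟩
    · exact coe_le.mpr (List.take_sublist n l).subperm
    · rw [coe_card, List.length_take]
      have : n ≤ l.length := h
      omega

theorem chunk8 (n : ℕ) : ∀ S : Multiset ℕ, card S = n →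
    ∃ (L : Multiset (Multiset ℕ)) (r : Multiset ℕ), L.sum + r = S ∧ (∀ B ∈ L, card B = 8) ∧
      card r < 8 := by
  induction n using Nat.strong_induction_on with
  | _ n ih =>
    intro S hS
    by_cases h : n < 8
    · exact ⟨0, S, by simp, by simp, by omega⟩
    · obtain ⟨B, hB, hB8⟩ := exists_sub S 8 (by omega)
      obtain ⟨S', rfl⟩ := Multiset.le_iff_exists_add.mp hB
      rw [card_add] at hS
      obtain ⟨L, r, h1, h2, h3⟩ := ih (card S') (by omega) S' rfl
      refine ⟨B ::ₘ L, r, ?_, ?_, h3⟩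
      · rw [sum_cons, add_assoc, h1]
      · intro B' hB'
        rw [mem_cons] at hB'
        rcases hB' with rfl | hB'
        · exact hB8
        · exact h2 B' hB'

/-- the weight of a block -/
def w (B : Multiset ℕ) : ℕ := (B.map fun p => p - 6).sum

theorem w_add (B C : Multiset ℕ) : w (B + C) = w B + w C := by
  simp [w]

theorem w_sum (L : Multiset (Multiset ℕ)) : w L.sum = (L.map w).sum := by
  induction L using Multiset.induction_on with
  | empty => simp [w]
  | cons B L ih => rw [sum_cons, map_cons, sum_cons, w_add, ih]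

theorem card_sum (L : Multiset (Multiset ℕ)) (h : ∀ B ∈ L, card B = 8) :
    card L.sum = 8 * card L := by
  induction L using Multiset.induction_on with
  | empty => simp
  | cons B L ih =>
    rw [sum_cons, card_add, card_cons, h B (mem_cons_self B L),
      ih (fun C hC => h C (mem_cons_of_mem hC))]
    ring

theorem mem_sum' (L : Multiset (Multiset ℕ)) (x : ℕ) : x ∈ L.sum ↔ ∃ B ∈ L, x ∈ B := by
  induction L using Multiset.induction_on with
  | empty => simp
  | cons B L ih =>
    rw [sum_cons, mem_add, ih]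
    simp

/-- one parity class -/
theorem sweep1 (hsw : SweepStmt) (i : ℕ) (hi : 1 ≤ i) (hi5 : i ≤ 5) (Δ π : ℕ)
    (hπ : π < 2) (A : Multiset (Multiset ℕ)) (hA : ∀ B ∈ A, card B = 8)
    (hA6 : ∀ B ∈ A, ∀ p ∈ B, 6 ≤ p ∧ p ≤ Δ ∧ p % 2 = π) :
    ∃ a : ℕ, cap i * a ≤ (A.map w).sum + 300 * Δ ∧ Rz (A.sum + replicate a i) := by
  by_cases hΔ : Δ % 2 = π
  · obtain ⟨a, h1, h2⟩ := hsw i hi hi5 Δ (card A) A.sum (by
      intro p hp
      obtain ⟨B, hB, hpB⟩ := (mem_sum' A p).mp hp
      have := hA6 B hB p hpB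
      omega) (card_sum A hA)
    refine ⟨a, ?_, h2⟩
    rw [← w_sum]
    exact h1
  · obtain ⟨a, h1, h2⟩ := hsw i hi hi5 (Δ - 1) (card A) A.sum (by
      intro p hp
      obtain ⟨B, hB, hpB⟩ := (mem_sum' A p).mp hp
      have := hA6 B hB p hpB
      omega) (card_sum A hA)
    refine ⟨a, ?_, h2⟩
    rw [← w_sum]
    refine le_trans h1 ?_
    unfold w
    omega

/-- even blocks -/
def Ev (Δ : ℕ) (B : Multiset ℕ) : Prop := ∀ p ∈ B, 6 ≤ p ∧ p ≤ Δ ∧ p % 2 = 0

/-- both parity classes -/
theorem sweep2 (hsw : SweepStmt) (hadd : AddStmt) (i : ℕ) (hi : 1 ≤ i) (hi5 : i ≤ 5)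
    (Δ : ℕ) (A : Multiset (Multiset ℕ)) (hA : ∀ B ∈ A, card B = 8)
    (hA6 : ∀ B ∈ A, ∃ π < 2, ∀ p ∈ B, 6 ≤ p ∧ p ≤ Δ ∧ p % 2 = π) :
    ∃ a : ℕ, cap i * a ≤ (A.map w).sum + 600 * Δ ∧ Rz (A.sum + replicate a i) := by
  classical
  set A0 := A.filter (fun B => Ev Δ B) with hA0
  set A1 := A.filter (fun B => ¬ Ev Δ B) with hA1
  have hsplit : A0 + A1 = A := filter_add_not _ A
  obtain ⟨a0, h1, h2⟩ := sweep1 hsw i hi hi5 Δ 0 (by norm_num) A0
    (fun B hB => hA B (mem_of_mem_filter hB)) (fun B hB => (mem_filter.mp hB).2)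
  obtain ⟨a1, h3, h4⟩ := sweep1 hsw i hi hi5 Δ 1 (by norm_num) A1
    (fun B hB => hA B (mem_of_mem_filter hB)) (by
      intro B hB
      obtain ⟨hB1, hB2⟩ := mem_filter.mp hB
      obtain ⟨π, hπ, h⟩ := hA6 B hB1
      have : π = 1 := by
        by_contra hne
        have : π = 0 := by omega
        subst this
        exact hB2 h
      subst this
      exact h)
  refine ⟨a0 + a1, ?_, ?_⟩
  · rw [← hsplit, Multiset.map_add, Multiset.sum_add, mul_add]
    omega
  · rw [← hsplit, Multiset.sum_add, replicate_add]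
    have := hadd _ _ h2 h4
    convert this using 1
    abel

theorem rz_finset (hadd : AddStmt) (h0 : Rz 0) {ι : Type} (s : Finset ι) (f : ι → Multiset ℕ)
    (h : ∀ i ∈ s, Rz (f i)) : Rz (∑ i ∈ s, f i) := by
  classical
  induction s using Finset.induction_on with
  | empty => simpa using h0
  | insert a s ha ih =>
    rw [Finset.sum_insert ha]
    exact hadd _ _ (h a (Finset.mem_insert_self a s))
      (ih (fun i hi => h i (Finset.mem_insert_of_mem hi)))

theorem rz_nsmul (hadd : AddStmt) (h0 : Rz 0) (D : Multiset ℕ) (h : Rz D) (n : ℕ) :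
    Rz (n • D) := by
  induction n with
  | zero => simpa using h0
  | succ n ih => rw [succ_nsmul]; exact hadd _ _ ih h

theorem rz_twelve (hadd : AddStmt) (hs : SmallStmt) (i : ℕ) (hi : 1 ≤ i) (hi5 : i ≤ 5) (q : ℕ) :
    Rz (replicate (12 * q) i) := by
  obtain ⟨h0, _, h1, h2, _, h3, h4, h5⟩ := hs
  have key : ∀ (m k : ℕ), m * k = 12 → Rz (replicate k i) → Rz (replicate (12 * q) i) := by
    intro m k hmk h
    have := rz_nsmul hadd h0 _ h (m * q)
    rw [nsmul_replicate] at this
    have e : m * q * k = 12 * q := by rw [← hmk]; ring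
    rwa [e] at this
  interval_cases i
  · exact key 6 2 rfl h1
  · exact key 4 3 rfl h2
  · exact key 3 4 rfl h3
  · exact key 2 6 rfl h4
  · exact key 1 12 rfl h5

theorem mapsum_le (R : Multiset ℕ) (M n : ℕ) (hR : ∀ x ∈ R, x ≤ M) (hn : card R ≤ n) :
    (R.map fun x => 6 * x + 15).sum ≤ n * (6 * M + 15) := by
  have h1 : (R.map fun x => 6 * x + 15).sum ≤ card (R.map fun x => 6 * x + 15) • (6 * M + 15) := by
    apply sum_le_card_nsmul
    intro y hy
    obtain ⟨x, hx, rfl⟩ := mem_map.mp hy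
    have := hR x hx
    omega
  rw [card_map, smul_eq_mul] at h1
  exact h1.trans (Nat.mul_le_mul_right _ hn)

theorem decomp (D : Multiset ℕ) (hD : ∀ v ∈ D, 1 ≤ v) :
    D = D.filter (fun v => 6 ≤ v) +
      ∑ i : Fin 5, replicate (D.count (i.val + 1)) (i.val + 1) := by
  ext x
  rw [count_add, count_sum', count_filter]
  simp only [count_replicate]
  rw [Fin.sum_univ_five]
  simp only [Fin.val_zero, Fin.val_one, Fin.val_two]
  have h3 : ((3 : Fin 5) : ℕ) = 3 := rfl
  have h4 : ((4 : Fin 5) : ℕ) = 4 := rfl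
  rw [h3, h4]
  by_cases hx : 6 ≤ x
  · rw [if_pos hx, if_neg (by omega), if_neg (by omega), if_neg (by omega), if_neg (by omega),
      if_neg (by omega)]
    simp
  · rw [if_neg hx]
    have hx' : x = 0 ∨ x = 1 ∨ x = 2 ∨ x = 3 ∨ x = 4 ∨ x = 5 := by omega
    rcases hx' with rfl | rfl | rfl | rfl | rfl | rfl
    · have : count 0 D = 0 := count_eq_zero.mpr (fun h => by have := hD 0 h; omega)
      simp [this]
    all_goals simp

theorem demand_filter (D : Multiset ℕ) :
    w (D.filter (fun v => 6 ≤ v)) = demand D := by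
  unfold w demand
  induction D using Multiset.induction_on with
  | empty => simp
  | cons a D ih =>
    by_cases h : 6 ≤ a
    · rw [filter_cons_of_pos _ h, map_cons, sum_cons, ih, map_cons, sum_cons]
    · rw [filter_cons_of_neg _ h, ih, map_cons, sum_cons]
      omega

theorem cap_pos (i : ℕ) : 1 ≤ cap i := by
  unfold cap
  split_ifs <;> omega

theorem cap_le (i : ℕ) : cap i ≤ 2 := by
  unfold cap
  split_ifs <;> omega

theorem supply_eq (D : Multiset ℕ) :
    supply D = ∑ i : Fin 5, cap (i.val + 1) * D.count (i.val + 1) := by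
  rw [Fin.sum_univ_five]
  have h3 : ((3 : Fin 5) : ℕ) = 3 := rfl
  have h4 : ((4 : Fin 5) : ℕ) = 4 := rfl
  simp only [Fin.val_zero, Fin.val_one, Fin.val_two, h3, h4, supply, cap]
  norm_num

end MainProof

open MainProof in
theorem main_proof (hsw : SweepStmt) (hsi : SingleStmt) (hle : LeftStmt) (hs : SmallStmt)
    (hadd : AddStmt) (hev : EvenStmt) (hbin : BinStmt) : MainStmt := by
  classical
  intro Δ D hD hpar hcond
  have h0 : Rz 0 := hs.1
  by_cases hΔ : Δ = 0
  · have : D = 0 := by
      rw [eq_zero_iff_forall_notMem]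
      intro v hv
      have := hD v hv
      omega
    rw [this]
    exact h0
  -- poles
  set H := D.filter (fun v => 6 ≤ v) with hH
  have hdec := decomp D (fun v hv => (hD v hv).1)
  rw [← hH] at hdec
  have hH6 : ∀ p ∈ H, 6 ≤ p ∧ p ≤ Δ := fun p hp => by
    obtain ⟨h1, h2⟩ := mem_filter.mp hp
    exact ⟨h2, (hD p h1).2⟩
  set H0 := H.filter (fun p => p % 2 = 0) with hH0
  set H1 := H.filter (fun p => ¬ p % 2 = 0) with hH1
  have hH01 : H0 + H1 = H := filter_add_not _ H
  obtain ⟨L0, r0, hL0, hB0, hr0⟩ := chunk8 _ H0 rfl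
  obtain ⟨L1, r1, hL1, hB1, hr1⟩ := chunk8 _ H1 rfl
  have hblock : ∀ B ∈ L0 + L1, ∃ π < 2, ∀ p ∈ B, 6 ≤ p ∧ p ≤ Δ ∧ p % 2 = π := by
    intro B hB
    rw [mem_add] at hB
    rcases hB with hB | hB
    · refine ⟨0, by norm_num, fun p hp => ?_⟩
      have h1 : p ∈ H0 := by
        rw [← hL0, mem_add]
        exact Or.inl ((mem_sum' L0 p).mpr ⟨B, hB, hp⟩)
      obtain ⟨h2, h3⟩ := mem_filter.mp h1
      have := hH6 p h2
      exact ⟨this.1, this.2, h3⟩
    · refine ⟨1, by norm_num, fun p hp => ?_⟩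
      have h1 : p ∈ H1 := by
        rw [← hL1, mem_add]
        exact Or.inl ((mem_sum' L1 p).mpr ⟨B, hB, hp⟩)
      obtain ⟨h2, h3⟩ := mem_filter.mp h1
      have := hH6 p h2
      exact ⟨this.1, this.2, by omega⟩
  have hblock8 : ∀ B ∈ L0 + L1, card B = 8 := by
    intro B hB
    rw [mem_add] at hB
    rcases hB with hB | hB
    · exact hB0 B hB
    · exact hB1 B hB
  have hw8 : ∀ B ∈ L0 + L1, w B ≤ 8 * Δ := by
    intro B hB
    have h1 : w B ≤ card (B.map fun p => p - 6) • Δ := by
      apply sum_le_card_nsmul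
      intro y hy
      obtain ⟨x, hx, rfl⟩ := mem_map.mp hy
      obtain ⟨π, _, h⟩ := hblock B hB
      have := (h x hx).2.1
      omega
    rwa [card_map, hblock8 B hB, smul_eq_mul] at h1
  have hwsum : ((L0 + L1).map w).sum ≤ demand D := by
    rw [← demand_filter, ← hH, ← hH01, ← hL0, ← hL1, Multiset.map_add, Multiset.sum_add, w_add,
      w_add, w_add, w_sum, w_sum]
    omega
  obtain ⟨b, hb⟩ : ∃ b : Fin 5 → ℕ, ∀ i, b i = cap (i.val + 1) * D.count (i.val + 1) :=
    ⟨_, fun _ => rfl⟩
  have hsupp : supply D = ∑ i, b i := by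
    rw [supply_eq]
    exact Finset.sum_congr rfl (fun i _ => (hb i).symm)
  obtain ⟨A, hA1, hA2⟩ := hbin (Multiset ℕ) w (8 * Δ) (600 * Δ) b (L0 + L1) hw8 (by
    rw [hsupp] at hcond
    omega)
  have hAmem : ∀ i, ∀ B ∈ A i, B ∈ L0 + L1 := by
    intro i B hB
    rw [← hA1]
    exact mem_sum.mpr ⟨i, Finset.mem_univ i, hB⟩
  have hsw2 : ∀ i : Fin 5, ∃ a : ℕ, cap (i.val + 1) * a ≤ ((A i).map w).sum + 600 * Δ ∧
      a ≤ D.count (i.val + 1) ∧ Rz ((A i).sum + replicate a (i.val + 1)) := by
    intro i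
    rcases hA2 i with hz | hz
    · refine ⟨0, by simp, by simp, ?_⟩
      rw [hz]
      simpa using h0
    · obtain ⟨a, h1, h2⟩ := sweep2 hsw hadd (i.val + 1) (by omega) (by omega) Δ (A i)
        (fun B hB => hblock8 B (hAmem i B hB)) (fun B hB => hblock B (hAmem i B hB))
      refine ⟨a, h1, ?_, h2⟩
      rw [hb i] at hz
      have h3 : cap (i.val + 1) * a ≤ cap (i.val + 1) * D.count (i.val + 1) := h1.trans hz
      exact Nat.le_of_mul_le_mul_left h3 (cap_pos _)
  choose a ha1 ha2 ha3 using hsw2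
  -- the big bin
  obtain ⟨i0, hi0⟩ : ∃ i0 : Fin 5, ((A i0).map w).sum + 4000 * Δ ≤ b i0 := by
    by_contra hc
    push Not at hc
    have h1 : ∑ i, b i < ∑ i : Fin 5, (((A i).map w).sum + 4000 * Δ) :=
      Finset.sum_lt_sum_of_nonempty Finset.univ_nonempty (fun i _ => hc i)
    rw [Finset.sum_add_distrib] at h1
    have h2 : ∑ i : Fin 5, ((A i).map w).sum = ((L0 + L1).map w).sum := by
      rw [← hA1]
      rw [← Multiset.coe_mapAddMonoidHom]
      rw [_root_.map_sum, Multiset.sum_sum]
    rw [h2] at h1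
    simp only [Finset.sum_const, Finset.card_univ, Fintype.card_fin, smul_eq_mul] at h1
    rw [hsupp] at hcond
    omega
  obtain ⟨m, hm⟩ : ∃ m : Fin 5 → ℕ, ∀ i, m i = D.count (i.val + 1) - a i := ⟨_, fun _ => rfl⟩
  have hma : ∀ i, D.count (i.val + 1) = a i + (12 * (m i / 12) + m i % 12) := by
    intro i
    have h1 := ha2 i
    have h2 := hm i
    have h3 := Nat.div_add_mod (m i) 12
    omega
  set R : Multiset ℕ := r0 + r1 +
    ∑ i ∈ Finset.univ.erase i0, replicate (m i % 12) (i.val + 1) with hR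
  have hXY : D = (∑ i : Fin 5, ((A i).sum + replicate (a i) (i.val + 1))) +
      (∑ i ∈ Finset.univ.erase i0, replicate (12 * (m i / 12)) (i.val + 1)) +
      (R + replicate (m i0) (i0.val + 1)) := by
    have e1 : H = (∑ i : Fin 5, (A i).sum) + (r0 + r1) := by
      have : (∑ i : Fin 5, (A i).sum) = L0.sum + L1.sum := by
        rw [← Multiset.sum_add, ← hA1, Multiset.sum_sum]
      rw [this, ← hH01, ← hL0, ← hL1]
      abel
    have e2 : (∑ i : Fin 5, replicate (D.count (i.val + 1)) (i.val + 1)) =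
        (∑ i : Fin 5, replicate (a i) (i.val + 1)) + replicate (m i0) (i0.val + 1) +
        ((∑ i ∈ Finset.univ.erase i0, replicate (12 * (m i / 12)) (i.val + 1)) +
        ∑ i ∈ Finset.univ.erase i0, replicate (m i % 12) (i.val + 1)) := by
      rw [← Finset.sum_add_distrib, add_assoc]
      have e3 : replicate (m i0) (i0.val + 1) +
          ∑ i ∈ Finset.univ.erase i0, (replicate (12 * (m i / 12)) (i.val + 1) +
            replicate (m i % 12) (i.val + 1)) =
          ∑ i : Fin 5, replicate (m i) (i.val + 1) := by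
        rw [← Finset.add_sum_erase _ _ (Finset.mem_univ i0)]
        congr 1
        apply Finset.sum_congr rfl
        intro i _
        rw [← replicate_add]
        congr 1
        exact Nat.div_add_mod (m i) 12
      rw [e3, ← Finset.sum_add_distrib]
      apply Finset.sum_congr rfl
      intro i _
      rw [← replicate_add]
      congr 1
      have h1 := ha2 i
      have h2 := hm i
      omega
    rw [e1, e2] at hdec
    rw [hR, Finset.sum_add_distrib]
    refine hdec.trans ?_
    abel
  have hX : Rz (∑ i : Fin 5, ((A i).sum + replicate (a i) (i.val + 1))) :=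
    rz_finset hadd h0 _ _ (fun i _ => ha3 i)
  have hY : Rz (∑ i ∈ Finset.univ.erase i0, replicate (12 * (m i / 12)) (i.val + 1)) :=
    rz_finset hadd h0 _ _ (fun i _ => rz_twelve hadd hs _ (by omega) (by omega) _)
  have hXe := hev _ hX
  have hYe := hev _ hY
  have hsum : (R.sum + m i0 * (i0.val + 1)) % 2 = 0 := by
    have h1 := congrArg Multiset.sum hXY
    rw [Multiset.sum_add, Multiset.sum_add, Multiset.sum_add, sum_replicate, smul_eq_mul] at h1
    omega
  have hi01 : 1 ≤ i0.val + 1 := by omega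
  have hi05 : i0.val + 1 ≤ 5 := by omega
  obtain ⟨a', hs1, hs2⟩ := hsi (i0.val + 1) hi01 hi05 R (by
    intro h
    obtain ⟨t, ht⟩ : ∃ t, i0.val + 1 = 2 * t := ⟨(i0.val + 1) / 2, by omega⟩
    rw [ht] at hsum
    have : m i0 * (2 * t) = 2 * (m i0 * t) := by ring
    rw [this] at hsum
    omega)
  have hRbound : (R.map fun x => 6 * x + 15).sum ≤ 14 * (6 * Δ + 15) + 44 * 45 := by
    rw [hR, Multiset.map_add, Multiset.sum_add]
    have hr01 : ((r0 + r1).map fun x => 6 * x + 15).sum ≤ 14 * (6 * Δ + 15) := by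
      apply mapsum_le
      · intro x hx
        rw [mem_add] at hx
        rcases hx with hx | hx
        · have : x ∈ H0 := by rw [← hL0, mem_add]; exact Or.inr hx
          exact (hH6 x (mem_of_mem_filter this)).2
        · have : x ∈ H1 := by rw [← hL1, mem_add]; exact Or.inr hx
          exact (hH6 x (mem_of_mem_filter this)).2
      · rw [card_add]; omega
    have hr2 : ((∑ i ∈ Finset.univ.erase i0, replicate (m i % 12) (i.val + 1)).map
        fun x => 6 * x + 15).sum ≤ 44 * 45 := by
      have := mapsum_le (∑ i ∈ Finset.univ.erase i0, replicate (m i % 12) (i.val + 1)) 5 44 (by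
        intro x hx
        obtain ⟨i, _, hi⟩ := mem_sum.mp hx
        have := eq_of_mem_replicate hi
        omega) (by
        rw [Multiset.card_sum]
        have h1 : ∑ i ∈ Finset.univ.erase i0, card (replicate (m i % 12) (i.val + 1)) ≤
            ∑ i ∈ Finset.univ.erase i0, 11 := by
          apply Finset.sum_le_sum
          intro i _
          rw [card_replicate]
          omega
        rw [Finset.sum_const, Finset.card_erase_of_mem (Finset.mem_univ i0), Finset.card_univ,
          Fintype.card_fin] at h1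
        simpa using h1)
      exact this
    omega
  have hm240 : a' + 240 ≤ m i0 := by
    have h1 := ha1 i0
    have h2 := cap_le (i0.val + 1)
    have h3 : cap (i0.val + 1) * (a' + 240) ≤ 14 * (6 * Δ + 15) + 44 * 45 + 480 := by
      rw [mul_add]
      have : cap (i0.val + 1) * 240 ≤ 2 * 240 := Nat.mul_le_mul_right _ h2
      omega
    have h4 : b i0 = cap (i0.val + 1) * a i0 + cap (i0.val + 1) * m i0 := by
      rw [hb i0, ← mul_add]
      congr 1
      have := ha2 i0
      have := hm i0
      omega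
    have h5 : cap (i0.val + 1) * (a' + 240) ≤ cap (i0.val + 1) * m i0 := by omega
    exact Nat.le_of_mul_le_mul_left h5 (cap_pos _)
  have hse := hev _ hs2
  rw [Multiset.sum_add, sum_replicate, smul_eq_mul] at hse
  have hlast : Rz (replicate (m i0 - a') (i0.val + 1)) := by
    apply hle _ hi01 hi05 _ (by omega)
    obtain ⟨t, ht⟩ : ∃ t, m i0 = a' + t := ⟨m i0 - a', by omega⟩
    rw [ht] at hsum ⊢
    rw [add_mul] at hsum
    have : a' + t - a' = t := by omega
    rw [this, mul_comm]
    omega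
  have hfin := hadd _ _ (hadd _ _ hX hY) (hadd _ _ hs2 hlast)
  rw [hXY]
  convert hfin using 1
  have : replicate (m i0) (i0.val + 1) = replicate a' (i0.val + 1) +
      replicate (m i0 - a') (i0.val + 1) := by
    rw [← replicate_add]
    congr 1
    omega
  rw [this]
  abel

end PDS
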