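import Pool.Agent.Helper70_PDS.CylBook

/-!
# Degree sequences of planar graphs: statements of the modules
-/

namespace PDS

open Multiset

/-- DRAW: a graph with a two-page book embedding has a drawing without crossings. -/
def DrawStmt : Prop := ∀ (V : Type) (G : SimpleGraph V), Book2 G → Planar G

/-- ADD: disjoint unions. -/
def AddStmt : Prop := ∀ D E : Multiset ℕ, Rz D → Rz E → Rz (D + E)

/-- EVEN: handshake. -/
def EvenStmt : Prop := ∀ D : Multiset ℕ, Rz D → D.sum % 2 = 0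

/-- INS: insertion of the graph `H` (vertex `0` of `H` is identified with a vertex). -/
def InsStmt : Prop := ∀ (m : ℕ) (H : SimpleGraph (Fin (m + 1))), FinBook H →
  ∀ (x : ℕ) (D : Multiset ℕ), Rz (x ::ₘ D) →
    Rz ((x + dg H 0) ::ₘ (D + (Finset.univ : Finset (Fin m)).val.map fun j => dg H j.succ))

/-- A vertex may be raised by `c` with the help of `k` new vertices of degree `i`. -/
def Raise (c i k : ℕ) : Prop := ∀ (x : ℕ) (D : Multiset ℕ), Rz (x ::ₘ D) →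
  Rz ((x + c) ::ₘ (D + replicate k i))

/-- GAD: the gadgets. -/
def GadStmt : Prop := Raise 2 1 2 ∧ Raise 2 2 2 ∧ Raise 2 3 4 ∧ Raise 2 4 6 ∧ Raise 2 5 12 ∧
  Raise 1 1 1 ∧ Raise 1 3 5 ∧ Raise 1 5 15

/-- SMALL: some small graphs. -/
def SmallStmt : Prop := Rz 0 ∧ Rz {0} ∧ Rz (replicate 2 1) ∧ Rz (replicate 3 2) ∧
  Rz (replicate 4 2) ∧ Rz (replicate 4 3) ∧ Rz (replicate 6 4) ∧ Rz (replicate 12 5)

/-- FILL: raising many vertices at once. -/
def FillStmt : Prop := ∀ c i k : ℕ, Raise c i k → ∀ (V : Type) [Fintype V] (f e : V → ℕ)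
  (D : Multiset ℕ), Rz ((Finset.univ : Finset V).val.map f + D) →
    Rz ((Finset.univ : Finset V).val.map (fun v => f v + c * e v) + D +
      replicate (k * ∑ v, e v) i)

/-- Tubes: `8 K` vertices of degree `β + 6`, the other vertices of degree `i`; tight up to an
additive constant. -/
def Tube (i : ℕ) : Prop := ∀ β K : ℕ, ∃ a : ℕ, cap i * a ≤ 8 * K * β + 250 ∧
  Rz (replicate (8 * K) (β + 6) + replicate a i)

/-- SWEEP: many vertices of degrees at least 6 of the same parity. -/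
def SweepStmt : Prop := ∀ i : ℕ, 1 ≤ i → i ≤ 5 → ∀ (Δ K : ℕ) (P : Multiset ℕ),
  (∀ p ∈ P, 6 ≤ p ∧ p ≤ Δ ∧ p % 2 = Δ % 2) → card P = 8 * K →
    ∃ a : ℕ, cap i * a ≤ (P.map fun p => p - 6).sum + 300 * Δ ∧ Rz (P + replicate a i)

/-- SINGLE: few vertices of any degrees. -/
def SingleStmt : Prop := ∀ i : ℕ, 1 ≤ i → i ≤ 5 → ∀ R : Multiset ℕ,
  (i % 2 = 0 → R.sum % 2 = 0) →
    ∃ a : ℕ, cap i * a ≤ (R.map fun x => 6 * x + 15).sum ∧ Rz (R + replicate a i)

/-- LEFT: regular graphs. -/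
def LeftStmt : Prop := ∀ i : ℕ, 1 ≤ i → i ≤ 5 → ∀ m : ℕ, 240 ≤ m → i * m % 2 = 0 →
  Rz (replicate m i)

/-- BIN: distribution of blocks of size at most `s` over five bins with capacities `b`; `A i` is
the multiset of the blocks in the bin `i`. -/
def BinStmt : Prop := ∀ (T : Type) (w : T → ℕ) (s o : ℕ) (b : Fin 5 → ℕ) (L : Multiset T),
  (∀ t ∈ L, w t ≤ s) → (L.map w).sum + 5 * (s + o) ≤ ∑ i, b i →
    ∃ A : Fin 5 → Multiset T, ∑ i, A i = L ∧ ∀ i, A i = 0 ∨ ((A i).map w).sum + o ≤ b i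

/-- The supply of a degree sequence. -/
def supply (D : Multiset ℕ) : ℕ :=
  D.count 1 + 2 * D.count 2 + 2 * D.count 3 + 2 * D.count 4 + D.count 5

/-- The demand of a degree sequence. -/
def demand (D : Multiset ℕ) : ℕ := (D.map fun v => v - 6).sum

/-- MAIN: the theorem for multisets of positive integers. -/
def MainStmt : Prop := ∀ (Δ : ℕ) (D : Multiset ℕ), (∀ v ∈ D, 1 ≤ v ∧ v ≤ Δ) → D.sum % 2 = 0 →
  demand D + 20000 * Δ ≤ supply D → Rz D

/-- SEQ: the theorem for sequences. -/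
def SeqStmt : Prop := ∀ (n : ℕ) (v : Fin n → ℕ) (Δ : ℕ), (∀ i, v i ≤ Δ) →
  (∑ i, v i) % 2 = 0 →
  (∑ i, (v i - 6)) + 20000 * Δ ≤
    Nat.card {i // v i = 1} + 2 * Nat.card {i // v i = 2} + 2 * Nat.card {i // v i = 3} +
      2 * Nat.card {i // v i = 4} + Nat.card {i // v i = 5} →
  ∃ G : SimpleGraph (Fin n), Planar G ∧ ∀ i, dg G i = v i

end PDS
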